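import Mathlib

set_option autoImplicit false

namespace Pool.Agent.MP_9fba86_co

/-- Three hubs, and for each of the three pairs of hubs a clique on `2 * m` vertices which is
completely joined to both hubs of the pair. -/
abbrev Vt (m : ℕ) : Type := Fin 3 ⊕ (Fin 3 × Fin (2 * m))

/-- adjacency -/
def adj (m : ℕ) : Vt m → Vt m → Prop
  | Sum.inl _, Sum.inl _ => False
  | Sum.inl a, Sum.inr p => a = p.1 ∨ a = p.1 + 1
  | Sum.inr p, Sum.inl a => a = p.1 ∨ a = p.1 + 1
  | Sum.inr p, Sum.inr q => p.1 = q.1 ∧ p.2 ≠ q.2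

/-- the triangle of cliques -/
def tri (m : ℕ) : SimpleGraph (Vt m) where
  Adj := adj m
  symm := ⟨by
    rintro (a | p) (b | q) h
    · exact h
    · exact h
    · exact h
    · exact ⟨h.1.symm, h.2.symm⟩⟩
  loopless := ⟨by
    rintro (a | p) h
    · exact h
    · exact h.2 rfl⟩

instance (m : ℕ) : DecidableRel (tri m).Adj := by
  rintro (a | p) (b | q)
  · exact isFalse (fun h => h)
  · exact inferInstanceAs (Decidable (a = q.1 ∨ a = q.1 + 1))
  · exact inferInstanceAs (Decidable (b = p.1 ∨ b = p.1 + 1))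
  · exact inferInstanceAs (Decidable (p.1 = q.1 ∧ p.2 ≠ q.2))

theorem adj_hub_piece (m : ℕ) (a j : Fin 3) (x : Fin (2 * m)) :
    (tri m).Adj (Sum.inl a) (Sum.inr (j, x)) ↔ (a = j ∨ a = j + 1) := Iff.rfl

theorem adj_piece_hub (m : ℕ) (a j : Fin 3) (x : Fin (2 * m)) :
    (tri m).Adj (Sum.inr (j, x)) (Sum.inl a) ↔ (a = j ∨ a = j + 1) := Iff.rfl

theorem adj_piece_piece (m : ℕ) (j k : Fin 3) (x y : Fin (2 * m)) :
    (tri m).Adj (Sum.inr (j, x)) (Sum.inr (k, y)) ↔ (j = k ∧ x ≠ y) := Iff.rfl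

theorem adj_hub_hub (m : ℕ) (a b : Fin 3) :
    ¬ (tri m).Adj (Sum.inl a) (Sum.inl b) := fun h => h

/-- Connectivity of induced subgraphs. -/
theorem induce_connected (m : ℕ) (S : Set (Vt m)) (hne : S.Nonempty)
    (h1 : ∀ a : Fin 3, ∃ x, (Sum.inr (a, x) : Vt m) ∈ S)
    (h2 : ∀ (j : Fin 3) (x : Fin (2 * m)), (Sum.inr (j, x) : Vt m) ∈ S →
      (Sum.inl j : Vt m) ∈ S ∨ (Sum.inl (j + 1) : Vt m) ∈ S) :
    ((tri m).induce S).Connected := by
  have step : ∀ (a : Fin 3) (ha : (Sum.inl a : Vt m) ∈ S) (hb : (Sum.inl (a + 1) : Vt m) ∈ S),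
      ((tri m).induce S).Reachable ⟨Sum.inl a, ha⟩ ⟨Sum.inl (a + 1), hb⟩ := by
    intro a ha hb
    obtain ⟨x, hx⟩ := h1 a
    have e1 : ((tri m).induce S).Adj ⟨Sum.inl a, ha⟩ ⟨Sum.inr (a, x), hx⟩ := by
      change (tri m).Adj (Sum.inl a) (Sum.inr (a, x))
      rw [adj_hub_piece]; exact Or.inl rfl
    have e2 : ((tri m).induce S).Adj ⟨Sum.inr (a, x), hx⟩ ⟨Sum.inl (a + 1), hb⟩ := by
      change (tri m).Adj (Sum.inr (a, x)) (Sum.inl (a + 1))
      rw [adj_piece_hub]; exact Or.inr rfl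
    exact e1.reachable.trans e2.reachable
  have hubs : ∀ (a b : Fin 3) (ha : (Sum.inl a : Vt m) ∈ S) (hb : (Sum.inl b : Vt m) ∈ S),
      ((tri m).induce S).Reachable ⟨Sum.inl a, ha⟩ ⟨Sum.inl b, hb⟩ := by
    intro a b ha hb
    have key : ∀ a b : Fin 3, a = b ∨ b = a + 1 ∨ a = b + 1 := by decide
    rcases key a b with rfl | rfl | rfl
    · exact SimpleGraph.Reachable.refl _
    · exact step a ha hb
    · exact (step b hb ha).symm
  have tohub : ∀ w : S, ∃ (a : Fin 3) (ha : (Sum.inl a : Vt m) ∈ S),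
      ((tri m).induce S).Reachable w ⟨Sum.inl a, ha⟩ := by
    rintro ⟨(a | ⟨j, x⟩), hw⟩
    · exact ⟨a, hw, SimpleGraph.Reachable.refl _⟩
    · rcases h2 j x hw with h | h
      · refine ⟨j, h, ?_⟩
        have e2 : ((tri m).induce S).Adj ⟨Sum.inr (j, x), hw⟩ ⟨Sum.inl j, h⟩ := by
          change (tri m).Adj (Sum.inr (j, x)) (Sum.inl j)
          rw [adj_piece_hub]; exact Or.inl rfl
        exact e2.reachable
      · refine ⟨j + 1, h, ?_⟩
        have e2 : ((tri m).induce S).Adj ⟨Sum.inr (j, x), hw⟩ ⟨Sum.inl (j + 1), h⟩ := by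
          change (tri m).Adj (Sum.inr (j, x)) (Sum.inl (j + 1))
          rw [adj_piece_hub]; exact Or.inr rfl
        exact e2.reachable
  have : Nonempty S := hne.to_subtype
  refine ⟨?_⟩
  intro w w'
  obtain ⟨a, ha, h⟩ := tohub w
  obtain ⟨b, hb, h'⟩ := tohub w'
  exact h.trans ((hubs a b ha hb).trans h'.symm)

theorem connected (m : ℕ) (hm : 1 ≤ m) : (tri m).Connected := by
  have h := induce_connected m Set.univ ⟨Sum.inl 0, trivial⟩
    (fun a => ⟨⟨0, by omega⟩, trivial⟩) (fun _ _ _ => Or.inl trivial)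
  exact (SimpleGraph.induceUnivIso (tri m)).connected_iff.1 h

theorem connected_remove (m : ℕ) (hm : 1 ≤ m) (v : Vt m) :
    ((tri m).induce {w : Vt m | w ≠ v}).Connected := by
  apply induce_connected
  · rcases v with a | p
    · refine ⟨Sum.inr (0, ⟨0, by omega⟩), ?_⟩
      simp
    · refine ⟨Sum.inl 0, ?_⟩
      simp
  · intro a
    by_cases h : v = Sum.inr (a, ⟨0, by omega⟩)
    · refine ⟨⟨1, by omega⟩, ?_⟩
      rw [h]
      simp
    · exact ⟨⟨0, by omega⟩, fun h' => h h'.symm⟩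
  · intro j x _
    by_cases h : v = Sum.inl j
    · right
      rw [h]
      simp
    · left
      exact fun h' => h h'.symm

theorem card_Vt (m : ℕ) : Fintype.card (Vt m) = 3 + 3 * (2 * m) := by
  simp [Vt]

theorem degree_ge (m : ℕ) (v : Vt m) : m ≤ ((tri m).neighborSet v).ncard := by
  rcases v with a | ⟨j, x⟩
  · have hsub : (fun y : Fin (2 * m) => (Sum.inr (a, y) : Vt m)) '' Set.univ
        ⊆ (tri m).neighborSet (Sum.inl a) := by
      rintro _ ⟨y, -, rfl⟩
      exact Or.inl rfl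
    have hinj : Function.Injective (fun y : Fin (2 * m) => (Sum.inr (a, y) : Vt m)) := by
      intro y z h
      simpa using h
    have := Set.ncard_le_ncard hsub (Set.toFinite _)
    rw [Set.ncard_image_of_injective _ hinj, Set.ncard_univ, Nat.card_eq_fintype_card,
      Fintype.card_fin] at this
    omega
  · have hsub : (fun y : Fin (2 * m) => (Sum.inr (j, y) : Vt m)) '' {y | y ≠ x}
        ⊆ (tri m).neighborSet (Sum.inr (j, x)) := by
      rintro _ ⟨y, hy, rfl⟩
      exact ⟨rfl, fun h => hy h.symm⟩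
    have hinj : Function.Injective (fun y : Fin (2 * m) => (Sum.inr (j, y) : Vt m)) := by
      intro y z h
      simpa using h
    have := Set.ncard_le_ncard hsub (Set.toFinite _)
    rw [Set.ncard_image_of_injective _ hinj] at this
    have h2 : ({y : Fin (2 * m) | y ≠ x} : Set _).ncard = 2 * m - 1 := by
      have : ({y : Fin (2 * m) | y ≠ x} : Set _) = ((Finset.univ.erase x : Finset (Fin (2 * m))) : Set _) := by
        ext y; simp
      rw [this, Set.ncard_coe_finset, Finset.card_erase_of_mem (Finset.mem_univ _)]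
      simp
    have := x.2
    omega

end Pool.Agent.MP_9fba86_co
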