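import Mathlib
import Pool.Agent.MP_9fba86_co.Graph

set_option autoImplicit false

namespace Pool.Agent.MP_9fba86_co

/-- The ordered pairs of a symmetric relation off the diagonal are even in number. -/
theorem even_pairs (n : ℕ) (C : Fin n → Fin n → Prop) [DecidableRel C]
    (hs : ∀ x y, C x y → C y x) :
    Even (∑ x : Fin n, ∑ y : Fin n, if (x ≠ y ∧ C x y) then (1 : ℕ) else 0) := by
  let G : SimpleGraph (Fin n) :=
    { Adj := fun x y => x ≠ y ∧ C x y
      symm := ⟨fun x y h => ⟨h.1.symm, hs x y h.2⟩⟩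
      loopless := ⟨fun x h => h.1 rfl⟩ }
  have inst : DecidableRel G.Adj := fun x y => inferInstanceAs (Decidable (x ≠ y ∧ C x y))
  have h1 : ∀ x, G.degree x = ∑ y : Fin n, if (x ≠ y ∧ C x y) then 1 else 0 := by
    intro x
    rw [← SimpleGraph.card_neighborFinset_eq_degree, ← Finset.card_filter]
    congr 1
    ext y
    simp [G]
  have h3 : (∑ x : Fin n, ∑ y : Fin n, if (x ≠ y ∧ C x y) then 1 else 0)
      = 2 * G.edgeFinset.card := by
    rw [← G.sum_degrees_eq_twice_card_edges]
    exact Finset.sum_congr rfl (fun x _ => (h1 x).symm)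
  refine ⟨G.edgeFinset.card, Eq.trans ?_ (h3.trans (two_mul _))⟩
  refine Finset.sum_congr rfl (fun x _ => Finset.sum_congr rfl (fun y _ => ?_))
  by_cases h : x ≠ y ∧ C x y
  · rw [if_pos h, if_pos h]
  · rw [if_neg h, if_neg h]

theorem ite_and_sum (n : ℕ) (p : Prop) [Decidable p] (q : Fin n → Prop) [DecidablePred q] :
    (∑ y : Fin n, if (p ∧ q y) then 1 else 0) = if p then (∑ y : Fin n, if q y then 1 else 0) else 0 := by
  by_cases h : p
  · simp [h]
  · simp [h]

theorem sum_hub (f : Fin 3 → ℕ) (a : Fin 3) :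
    (∑ j : Fin 3, if (a = j ∨ a = j + 1) then f j else 0) = f a + f (a + 2) := by
  rw [Fin.sum_univ_three]
  fin_cases a
  · have e0 : ((0 : Fin 3) = 0 ∨ (0 : Fin 3) = 0 + 1) = True := by decide
    have e1 : ((0 : Fin 3) = 1 ∨ (0 : Fin 3) = 1 + 1) = False := by decide
    have e2 : ((0 : Fin 3) = 2 ∨ (0 : Fin 3) = 2 + 1) = True := by decide
    have e3 : (0 : Fin 3) + 2 = 2 := by decide
    change (if ((0 : Fin 3) = 0 ∨ (0 : Fin 3) = 0 + 1) then f 0 else 0) +
      (if ((0 : Fin 3) = 1 ∨ (0 : Fin 3) = 1 + 1) then f 1 else 0) +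
      (if ((0 : Fin 3) = 2 ∨ (0 : Fin 3) = 2 + 1) then f 2 else 0) = f 0 + f (0 + 2)
    rw [e3, if_pos (by decide), if_neg (by decide), if_pos (by decide), Nat.add_zero]
  · have e3 : (1 : Fin 3) + 2 = 0 := by decide
    change (if ((1 : Fin 3) = 0 ∨ (1 : Fin 3) = 0 + 1) then f 0 else 0) +
      (if ((1 : Fin 3) = 1 ∨ (1 : Fin 3) = 1 + 1) then f 1 else 0) +
      (if ((1 : Fin 3) = 2 ∨ (1 : Fin 3) = 2 + 1) then f 2 else 0) = f 1 + f (1 + 2)
    rw [e3, if_pos (by decide), if_pos (by decide), if_neg (by decide), Nat.add_zero, Nat.add_comm]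
  · have e3 : (2 : Fin 3) + 2 = 1 := by decide
    change (if ((2 : Fin 3) = 0 ∨ (2 : Fin 3) = 0 + 1) then f 0 else 0) +
      (if ((2 : Fin 3) = 1 ∨ (2 : Fin 3) = 1 + 1) then f 1 else 0) +
      (if ((2 : Fin 3) = 2 ∨ (2 : Fin 3) = 2 + 1) then f 2 else 0) = f 2 + f (2 + 2)
    rw [e3, if_neg (by decide), if_pos (by decide), if_pos (by decide), Nat.zero_add, Nat.add_comm]

theorem sum_piece (q : Fin 3 → Prop) [DecidablePred q] (j : Fin 3) :
    (∑ a : Fin 3, if ((a = j ∨ a = j + 1) ∧ q a) then 1 else 0)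
      = (if q j then 1 else 0) + (if q (j + 1) then 1 else 0) := by
  rw [Fin.sum_univ_three]
  have key : ∀ (j : Fin 3) (b0 b1 b2 : Bool),
    (if (((0 : Fin 3) = j ∨ (0 : Fin 3) = j + 1) ∧ b0 = true) then 1 else 0) +
    (if (((1 : Fin 3) = j ∨ (1 : Fin 3) = j + 1) ∧ b1 = true) then 1 else 0) +
    (if (((2 : Fin 3) = j ∨ (2 : Fin 3) = j + 1) ∧ b2 = true) then 1 else 0) =
    (if (if j = 0 then b0 else if j = 1 then b1 else b2) = true then 1 else 0) +
    (if (if j = 0 then b1 else if j = 1 then b2 else b0) = true then 1 else 0) := by decide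
  have h := key j (decide (q 0)) (decide (q 1)) (decide (q 2))
  simp only [decide_eq_true_eq] at h
  rw [h]
  fin_cases j
  · simp
  · simp
  · simp

section colour

variable (m : ℕ) (c : Sym2 (Vt m) → Fin 3)

/-- number of edges of colour `i` at `v` -/
noncomputable def D (v : Vt m) (i : Fin 3) : ℕ :=
  {w : Vt m | (tri m).Adj v w ∧ c s(v, w) = i}.ncard

/-- number of edges of colour `i` between hub `a` and clique `j` -/
def H (a j i : Fin 3) : ℕ := ∑ x : Fin (2 * m), if c s(Sum.inl a, Sum.inr (j, x)) = i then 1 else 0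

theorem D_eq (v : Vt m) (i : Fin 3) :
    D m c v i = ∑ w : Vt m, if ((tri m).Adj v w ∧ c s(v, w) = i) then 1 else 0 := by
  unfold D
  rw [Set.ncard_eq_toFinset_card', ← Finset.card_filter]
  congr 1
  ext w
  simp

theorem D_hub (a i : Fin 3) : D m c (Sum.inl a) i = H m c a a i + H m c a (a + 2) i := by
  rw [D_eq, Fintype.sum_sum_type, Fintype.sum_prod_type]
  simp only [adj_hub_hub, adj_hub_piece, false_and, if_false, Finset.sum_const_zero, zero_add]
  simp only [ite_and_sum]
  exact sum_hub (fun j => H m c a j i) a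

theorem D_piece (j i : Fin 3) (x : Fin (2 * m)) :
    D m c (Sum.inr (j, x)) i =
      ((if c s(Sum.inl j, Sum.inr (j, x)) = i then 1 else 0) +
      (if c s(Sum.inl (j + 1), Sum.inr (j, x)) = i then 1 else 0)) +
      ∑ y : Fin (2 * m), if (x ≠ y ∧ c s(Sum.inr (j, x), Sum.inr (j, y)) = i) then 1 else 0 := by
  rw [D_eq, Fintype.sum_sum_type, Fintype.sum_prod_type]
  simp only [adj_piece_hub, adj_piece_piece]
  congr 1
  · have hsw : ∀ a : Fin 3, s((Sum.inr (j, x) : Vt m), Sum.inl a) = s(Sum.inl a, Sum.inr (j, x)) :=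
      fun a => Sym2.eq_swap
    simp only [hsw]
    exact sum_piece (fun a => c s(Sum.inl a, Sum.inr (j, x)) = i) j
  · rw [Finset.sum_eq_single j]
    · simp only [true_and]
    · intro k _ hk
      apply Finset.sum_eq_zero
      intro y _
      rw [if_neg]
      rintro ⟨⟨h, -⟩, -⟩
      exact hk h.symm
    · intro h
      exact absurd (Finset.mem_univ _) h

theorem H_total (a j : Fin 3) : H m c a j 0 + H m c a j 1 + H m c a j 2 = 2 * m := by
  unfold H
  rw [← Finset.sum_add_distrib, ← Finset.sum_add_distrib]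
  have : ∀ x : Fin (2 * m), (((if c s(Sum.inl a, Sum.inr (j, x)) = 0 then 1 else 0) +
      (if c s(Sum.inl a, Sum.inr (j, x)) = 1 then 1 else 0)) +
      (if c s(Sum.inl a, Sum.inr (j, x)) = 2 then 1 else 0)) = 1 := by
    intro x
    generalize c s(Sum.inl a, Sum.inr (j, x)) = t
    fin_cases t <;> simp
  simp [this]

theorem D_piece_total (j : Fin 3) (x : Fin (2 * m)) :
    D m c (Sum.inr (j, x)) 0 + D m c (Sum.inr (j, x)) 1 + D m c (Sum.inr (j, x)) 2 = 2 * m + 1 := by
  rw [D_piece, D_piece, D_piece]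
  have e1 : ∀ t : Fin 3, ((if t = 0 then 1 else 0) + (if t = 1 then 1 else 0)) +
      (if t = 2 then 1 else 0) = 1 := by decide
  have a1 := e1 (c s(Sum.inl j, Sum.inr (j, x)))
  have a2 := e1 (c s(Sum.inl (j + 1), Sum.inr (j, x)))
  have a3 : ((∑ y : Fin (2 * m), if (x ≠ y ∧ c s(Sum.inr (j, x), Sum.inr (j, y)) = 0) then 1 else 0)
      + (∑ y : Fin (2 * m), if (x ≠ y ∧ c s(Sum.inr (j, x), Sum.inr (j, y)) = 1) then 1 else 0))
      + (∑ y : Fin (2 * m), if (x ≠ y ∧ c s(Sum.inr (j, x), Sum.inr (j, y)) = 2) then 1 else 0)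
      = 2 * m - 1 := by
    rw [← Finset.sum_add_distrib, ← Finset.sum_add_distrib]
    have : ∀ y : Fin (2 * m),
        (((if (x ≠ y ∧ c s(Sum.inr (j, x), Sum.inr (j, y)) = 0) then 1 else 0)
        + (if (x ≠ y ∧ c s(Sum.inr (j, x), Sum.inr (j, y)) = 1) then 1 else 0))
        + (if (x ≠ y ∧ c s(Sum.inr (j, x), Sum.inr (j, y)) = 2) then 1 else 0))
        = if x ≠ y then 1 else 0 := by
      intro y
      by_cases h : x = y
      · simp [h]
      · generalize c s(Sum.inr (j, x), Sum.inr (j, y)) = t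
        fin_cases t <;> simp [h]
    simp_rw [this]
    rw [← Finset.card_filter]
    have h2 : (Finset.univ.filter (fun y : Fin (2 * m) => x ≠ y)) = Finset.univ.erase x := by
      ext y; simp [eq_comm]
    rw [h2, Finset.card_erase_of_mem (Finset.mem_univ _)]
    simp
  have hx := x.2
  omega

/-- handshake in a clique -/
theorem handshake (j i : Fin 3) :
    ∃ k, ∑ x : Fin (2 * m), D m c (Sum.inr (j, x)) i = H m c j j i + H m c (j + 1) j i + 2 * k := by
  have h := even_pairs (2 * m) (fun x y => c s(Sum.inr (j, x), Sum.inr (j, y)) = i)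
    (fun x y h => by rw [Sym2.eq_swap]; exact h)
  obtain ⟨k, hk⟩ := h
  refine ⟨k, ?_⟩
  simp_rw [D_piece]
  rw [Finset.sum_add_distrib, Finset.sum_add_distrib, hk]
  unfold H
  ring

theorem main_contra (hm : 1 ≤ m) (hc : ∀ v i, D m c v i = 0 ∨ Odd (D m c v i)) : False := by
  -- the colour missing at a hub
  have hub : ∀ a : Fin 3, ∃ μ : Fin 3, (∀ i, D m c (Sum.inl a) i ≠ 0 ↔ i ≠ μ) := by
    intro a
    have t0 := D_hub m c a 0
    have t1 := D_hub m c a 1
    have t2 := D_hub m c a 2
    have s1 := H_total m c a a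
    have s2 := H_total m c a (a + 2)
    have ex : ∃ i0, D m c (Sum.inl a) i0 = 0 := by
      by_contra hno
      push Not at hno
      obtain ⟨k0, hk0⟩ := (hc (Sum.inl a) 0).resolve_left (hno 0)
      obtain ⟨k1, hk1⟩ := (hc (Sum.inl a) 1).resolve_left (hno 1)
      obtain ⟨k2, hk2⟩ := (hc (Sum.inl a) 2).resolve_left (hno 2)
      omega
    obtain ⟨μ, hμ⟩ := ex
    refine ⟨μ, ?_⟩
    intro i
    constructor
    · rintro h rfl; exact h hμ
    · intro hi h0
      -- two missing colours: the third has positive even degree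
      obtain ⟨k, hk1, hk2, hk3⟩ : ∃ k : Fin 3, k ≠ i ∧ k ≠ μ ∧
          D m c (Sum.inl a) 0 + D m c (Sum.inl a) 1 + D m c (Sum.inl a) 2
            = D m c (Sum.inl a) i + D m c (Sum.inl a) μ + D m c (Sum.inl a) k := by
        fin_cases i <;> fin_cases μ <;> first
          | exact absurd rfl hi
          | exact ⟨0, by decide, by decide, by simp; try omega⟩
          | exact ⟨1, by decide, by decide, by simp; try omega⟩
          | exact ⟨2, by decide, by decide, by simp; try omega⟩
      rcases hc (Sum.inl a) k with h | ⟨r, hr⟩ <;> omega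
  choose μ hμ using hub
  -- a colour present everywhere at clique `j` and at both of its hubs
  have common : ∀ j : Fin 3, ∃ i : Fin 3, i ≠ μ j ∧ i ≠ μ (j + 1) ∧
      ∀ x, D m c (Sum.inr (j, x)) i ≠ 0 := by
    intro j
    by_cases hall : ∀ x i, D m c (Sum.inr (j, x)) i ≠ 0
    · have : ∀ p q : Fin 3, ∃ i : Fin 3, i ≠ p ∧ i ≠ q := by decide
      obtain ⟨i, h1, h2⟩ := this (μ j) (μ (j + 1))
      exact ⟨i, h1, h2, fun x => hall x i⟩
    · push Not at hall
      obtain ⟨x, i1, hx⟩ := hall
      have htot := D_piece_total m c j x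
      -- exactly one colour is present at `x`
      obtain ⟨i0, hi0⟩ : ∃ i0, ∀ i, i ≠ i0 → D m c (Sum.inr (j, x)) i = 0 := by
        have h0 := hc (Sum.inr (j, x)) 0
        have h1 := hc (Sum.inr (j, x)) 1
        have h2 := hc (Sum.inr (j, x)) 2
        have hz : D m c (Sum.inr (j, x)) 0 = 0 ∨ D m c (Sum.inr (j, x)) 1 = 0 ∨
            D m c (Sum.inr (j, x)) 2 = 0 := by
          fin_cases i1
          · exact Or.inl hx
          · exact Or.inr (Or.inl hx)
          · exact Or.inr (Or.inr hx)
        have hpairs : (D m c (Sum.inr (j, x)) 0 = 0 ∧ D m c (Sum.inr (j, x)) 1 = 0) ∨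
            (D m c (Sum.inr (j, x)) 0 = 0 ∧ D m c (Sum.inr (j, x)) 2 = 0) ∨
            (D m c (Sum.inr (j, x)) 1 = 0 ∧ D m c (Sum.inr (j, x)) 2 = 0) := by
          rcases h0 with h0 | ⟨r0, h0⟩ <;> rcases h1 with h1 | ⟨r1, h1⟩ <;>
            rcases h2 with h2 | ⟨r2, h2⟩ <;> omega
        rcases hpairs with ⟨p, q⟩ | ⟨p, q⟩ | ⟨p, q⟩
        · refine ⟨2, ?_⟩
          intro i hi
          fin_cases i
          · exact p
          · exact q
          · exact absurd rfl hi
        · refine ⟨1, ?_⟩
          intro i hi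
          fin_cases i
          · exact p
          · exact absurd rfl hi
          · exact q
        · refine ⟨0, ?_⟩
          intro i hi
          fin_cases i
          · exact absurd rfl hi
          · exact p
          · exact q
      -- every edge at `x` has colour `i0`
      have hedge : ∀ w, (tri m).Adj (Sum.inr (j, x)) w → c s(Sum.inr (j, x), w) = i0 := by
        intro w hw
        by_contra hne
        have h1 := hi0 _ hne
        unfold D at h1
        rw [Set.ncard_eq_zero (Set.toFinite _)] at h1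
        have : w ∈ ({w' : Vt m | (tri m).Adj (Sum.inr (j, x)) w' ∧
            c s(Sum.inr (j, x), w') = c s(Sum.inr (j, x), w)} : Set (Vt m)) := ⟨hw, rfl⟩
        rw [h1] at this
        exact this
      have hpres : ∀ w, (tri m).Adj (Sum.inr (j, x)) w → D m c w i0 ≠ 0 := by
        intro w hw h0
        unfold D at h0
        rw [Set.ncard_eq_zero (Set.toFinite _)] at h0
        have : (Sum.inr (j, x) : Vt m) ∈ ({w' : Vt m | (tri m).Adj w w' ∧
            c s(w, w') = i0} : Set (Vt m)) := ⟨hw.symm, by rw [Sym2.eq_swap]; exact hedge w hw⟩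
        rw [h0] at this
        exact this
      refine ⟨i0, ?_, ?_, ?_⟩
      · exact (hμ j i0).1 (hpres _ (Or.inl rfl))
      · exact (hμ (j + 1) i0).1 (hpres _ (Or.inr rfl))
      · intro y
        by_cases hxy : x = y
        · subst hxy
          intro h0
          have : ∀ i, D m c (Sum.inr (j, x)) i = 0 := by
            intro i
            by_cases hi : i = i0
            · rw [hi]; exact h0
            · exact hi0 i hi
          rw [this 0, this 1, this 2] at htot
          omega
        · exact hpres _ ⟨rfl, hxy⟩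
  -- parity of the number of edges of a present colour between a hub and a clique
  have cliq : ∀ j : Fin 3, ∃ i : Fin 3, i ≠ μ j ∧ i ≠ μ (j + 1) ∧
      (H m c j j i) % 2 = (H m c (j + 1) j i) % 2 := by
    intro j
    obtain ⟨i, h1, h2, h3⟩ := common j
    refine ⟨i, h1, h2, ?_⟩
    obtain ⟨k, hk⟩ := handshake m c j i
    have hodd : ∀ x : Fin (2 * m), ∃ r, D m c (Sum.inr (j, x)) i = 2 * r + 1 :=
      fun x => (hc _ i).resolve_left (h3 x)
    choose r hr using hodd
    simp_rw [hr] at hk
    rw [Finset.sum_add_distrib, ← Finset.mul_sum] at hk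
    simp at hk
    omega
  -- at a hub, all present colours give the same parity towards a clique
  have same : ∀ (a j i i' : Fin 3), (j = a ∨ j = a + 2) → i ≠ μ a → i' ≠ μ a →
      (H m c a j i) % 2 = (H m c a j i') % 2 := by
    intro a j i i' hj hi hi'
    have hz : H m c a j (μ a) = 0 := by
      have h0 : D m c (Sum.inl a) (μ a) = 0 := by
        by_contra hne
        exact (hμ a (μ a)).1 hne rfl
      rw [D_hub] at h0
      rcases hj with rfl | rfl <;> omega
    by_cases hii : i = i'
    · rw [hii]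
    have hsum : H m c a j i + H m c a j i' + H m c a j (μ a) = 2 * m := by
      rw [← H_total m c a j]
      generalize μ a = t at *
      fin_cases i <;> fin_cases i' <;> fin_cases t <;> first
        | exact absurd rfl hii
        | exact absurd rfl hi
        | exact absurd rfl hi'
        | (simp <;> omega)
    omega
  -- the two cliques at a hub have different parities
  have diff : ∀ (a i : Fin 3), i ≠ μ a → (H m c a a i + H m c a (a + 2) i) % 2 = 1 := by
    intro a i hi
    obtain ⟨r, hr⟩ := (hc (Sum.inl a) i).resolve_left ((hμ a i).2 hi)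
    rw [D_hub] at hr
    omega
  choose i hi1 hi2 hi3 using cliq
  have key : ∀ a : Fin 3, (H m c a a (i a) + H m c a (a + 2) (i (a + 2))) % 2 = 1 := by
    intro a
    have e : (a + 2) + 1 = a := by
      revert a; decide
    have h1 := diff a (i a) (hi1 a)
    have h2 : i (a + 2) ≠ μ a := by
      have := hi2 (a + 2)
      rwa [e] at this
    have h3 := same a (a + 2) (i a) (i (a + 2)) (Or.inr rfl) (hi1 a) h2
    omega
  have k0 := key 0
  have k1 := key 1
  have k2 := key 2
  have c0 := hi3 0
  have c1 := hi3 1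
  have c2 := hi3 2
  simp only [show (0 : Fin 3) + 2 = 2 from rfl, show (1 : Fin 3) + 2 = 0 from rfl,
    show (2 : Fin 3) + 2 = 1 from rfl, show (0 : Fin 3) + 1 = 1 from rfl,
    show (1 : Fin 3) + 1 = 2 from rfl, show (2 : Fin 3) + 1 = 0 from rfl] at k0 k1 k2 c0 c1 c2
  omega

end colour

end Pool.Agent.MP_9fba86_co
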